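import Mathlib

set_option autoImplicit false

namespace Pool.Agent.H33.Gel

def Sc (m d k k' : ℕ) : Prop := k' = k + d ∨ k' + m = k + d

def R (k r : ℕ) : Prop :=
  (k = 1 ∧ r = 2) ∨ (k = 0 ∧ r = 1) ∨ (2 ≤ k ∧ k % 2 = 0 ∧ r = 3) ∨ (2 ≤ k ∧ k % 2 = 1 ∧ r = 1)

/-- adjacency together with the class of the edge -/
def Sp (m k t k' t' c : ℕ) : Prop :=
  (t = 0 ∧ t' = 0 ∧ Sc m 1 k k' ∧ R k c) ∨ (t = 0 ∧ t' = 0 ∧ Sc m 1 k' k ∧ R k' c) ∨
  (t = 0 ∧ t' = 1 ∧ k = k' ∧ c = 0) ∨ (t = 0 ∧ t' = 2 ∧ k = k' ∧ c = 4) ∨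
  (t = 1 ∧ t' = 0 ∧ k = k' ∧ c = 0) ∨ (t = 2 ∧ t' = 0 ∧ k = k' ∧ c = 4) ∨
  (t = 1 ∧ t' = 0 ∧ Sc m 3 k k' ∧ c = 4) ∨ (t = 2 ∧ t' = 0 ∧ Sc m 3 k k' ∧ c = 0) ∨
  (t = 0 ∧ t' = 1 ∧ Sc m 3 k' k ∧ c = 4) ∨ (t = 0 ∧ t' = 2 ∧ Sc m 3 k' k ∧ c = 0)

/-- the edge `k t — k' t'` is the edge `a s — b u` -/
def Is (k t k' t' a s b u : ℕ) : Prop :=
  (k = a ∧ t = s ∧ k' = b ∧ t' = u) ∨ (k = b ∧ t = u ∧ k' = a ∧ t' = s)

structure Cyc (m L : ℕ) (κ τ c : ℕ → ℕ) : Prop where
  hm : m % 2 = 1
  hm9 : 9 ≤ m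
  hL : 3 ≤ L
  hk : ∀ i, κ i < m
  pk : ∀ i, κ (i + L) = κ i
  pt : ∀ i, τ (i + L) = τ i
  pc : ∀ i, c (i + L) = c i
  nb : ∀ i, ¬ (κ (i + 2) = κ i ∧ τ (i + 2) = τ i)
  sp : ∀ i, Sp m (κ i) (τ i) (κ (i + 1)) (τ (i + 1)) (c i)
  miss : (∀ i, ¬ Is (κ i) (τ i) (κ (i + 1)) (τ (i + 1)) 1 0 2 0) ∨
    (∀ i, ¬ Is (κ i) (τ i) (κ (i + 1)) (τ (i + 1)) 0 0 0 1) ∨
    (∀ i, ¬ Is (κ i) (τ i) (κ (i + 1)) (τ (i + 1)) 0 1 3 0)

def Four (L : ℕ) (c : ℕ → ℕ) : Prop :=
  ∃ i j k l, i < j ∧ j < k ∧ k < l ∧ l < i + L ∧ c i < c j ∧ c k < c j ∧ c k < c l ∧ c i < c l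

variable {m L : ℕ} {κ τ c : ℕ → ℕ}

lemma f1 (h : Cyc m L κ τ c) (i : ℕ) (ht : τ (i + 1) ≠ 0) :
    τ i = 0 ∧ τ (i + 2) = 0 ∧ ((c i = 0 ∧ c (i + 1) = 4) ∨ (c i = 4 ∧ c (i + 1) = 0)) := by
  have a := h.sp i
  have b := h.sp (i + 1)
  have n := h.nb i
  have k0 := h.hk i
  have k1 := h.hk (i + 1)
  have k2 := h.hk (i + 2)
  have := h.hm9
  simp only [Sp, Sc, R, add_assoc, Nat.reduceAdd] at a b
  omega

lemma f2 (h : Cyc m L κ τ c) (i : ℕ) (h0 : τ i = 0) (h1 : τ (i + 1) = 0) :
    1 ≤ c i ∧ c i ≤ 3 := by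
  have a := h.sp i
  simp only [Sp, Sc, R] at a
  omega

lemma rim (h : Cyc m L κ τ c) (i : ℕ) (h0 : τ i = 0) (h1 : τ (i + 1) = 0) :
    (Sc m 1 (κ i) (κ (i + 1)) ∧ R (κ i) (c i)) ∨
      (Sc m 1 (κ (i + 1)) (κ i) ∧ R (κ (i + 1)) (c i)) := by
  have a := h.sp i
  simp only [Sp] at a
  rcases a with a | a | a | a | a | a | a | a | a | a
  · exact Or.inl a.2.2
  · exact Or.inr a.2.2
  all_goals omega

lemma f4 (h : Cyc m L κ τ c) (i : ℕ) (h0 : τ i = 0) (h1 : τ (i + 1) = 0) (h2 : τ (i + 2) = 0) :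
    c i ≠ c (i + 1) := by
  have a := rim h i h0 h1
  have b := rim h (i + 1) h1 h2
  have n := h.nb i
  have k0 := h.hk i
  have k1 := h.hk (i + 1)
  have k2 := h.hk (i + 2)
  have := h.hm9
  have := h.hm
  simp only [Sc, R, add_assoc, Nat.reduceAdd] at a b
  omega

lemma gad (h : Cyc m L κ τ c) (i : ℕ) (ht : τ (i + 1) ≠ 0) :
    (Sc m 3 (κ i) (κ (i + 2)) ∧ κ (i + 1) = κ i ∧
        ((τ (i + 1) = 1 ∧ c i = 0) ∨ (τ (i + 1) = 2 ∧ c i = 4))) ∨
      (Sc m 3 (κ (i + 2)) (κ i) ∧ κ (i + 1) = κ (i + 2) ∧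
        ((τ (i + 1) = 1 ∧ c i = 4) ∨ (τ (i + 1) = 2 ∧ c i = 0))) := by
  have a := h.sp i
  have b := h.sp (i + 1)
  have n := h.nb i
  have k0 := h.hk i
  have k1 := h.hk (i + 1)
  have k2 := h.hk (i + 2)
  have := h.hm9
  obtain ⟨t0, t2, -⟩ := f1 h i ht
  have a' : (τ (i + 1) = 1 ∧ κ i = κ (i + 1) ∧ c i = 0) ∨
      (τ (i + 1) = 2 ∧ κ i = κ (i + 1) ∧ c i = 4) ∨
      (τ (i + 1) = 1 ∧ Sc m 3 (κ (i + 1)) (κ i) ∧ c i = 4) ∨
      (τ (i + 1) = 2 ∧ Sc m 3 (κ (i + 1)) (κ i) ∧ c i = 0) := by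
    rcases a with a | a | a | a | a | a | a | a | a | a
    · exact absurd a.2.1 ht
    · exact absurd a.2.1 ht
    · exact Or.inl a.2
    · exact Or.inr (Or.inl a.2)
    · exact absurd a.2.1 ht
    · exact absurd a.2.1 ht
    · exact absurd a.2.1 ht
    · exact absurd a.2.1 ht
    · exact Or.inr (Or.inr (Or.inl a.2))
    · exact Or.inr (Or.inr (Or.inr a.2))
  have b' : κ (i + 1) = κ (i + 2) ∨ Sc m 3 (κ (i + 1)) (κ (i + 2)) := by
    rcases b with b | b | b | b | b | b | b | b | b | b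
    · exact absurd b.1 ht
    · exact absurd b.1 ht
    · exact absurd b.1 ht
    · exact absurd b.1 ht
    · exact Or.inl b.2.2.1
    · exact Or.inl b.2.2.1
    · exact Or.inr b.2.2.1
    · exact Or.inr b.2.2.1
    · exact absurd b.1 ht
    · exact absurd b.1 ht
  clear a b
  have n' : κ (i + 2) ≠ κ i := fun e => n ⟨e, t2.trans t0.symm⟩
  rcases a' with ⟨x, y, z⟩ | ⟨x, y, z⟩ | ⟨x, y, z⟩ | ⟨x, y, z⟩ <;> rcases b' with w | w
  · omega
  · exact Or.inl ⟨y ▸ w, y.symm, Or.inl ⟨x, z⟩⟩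
  · omega
  · exact Or.inl ⟨y ▸ w, y.symm, Or.inr ⟨x, z⟩⟩
  · exact Or.inr ⟨w ▸ y, w, Or.inl ⟨x, z⟩⟩
  · simp only [Sc] at y w
    omega
  · exact Or.inr ⟨w ▸ y, w, Or.inr ⟨x, z⟩⟩
  · simp only [Sc] at y w
    omega

lemma l3 (h : Cyc m L κ τ c) (i : ℕ) (h1 : τ (i + 1) ≠ 0) (h3 : τ (i + 3) = 0) : L ≠ 3 := by
  rintro rfl
  have a := gad h i h1
  have b := rim h (i + 2) (f1 h i h1).2.1 h3
  have p := h.pk i
  have k0 := h.hk i
  have k2 := h.hk (i + 2)
  have := h.hm9
  simp only [Sc, R, add_assoc, Nat.reduceAdd] at a b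
  omega

lemma l4 (h : Cyc m L κ τ c) (i : ℕ) (h1 : τ (i + 1) ≠ 0) (h3 : τ (i + 3) = 0)
    (h4 : τ (i + 4) = 0) : L ≠ 4 := by
  rintro rfl
  have a := gad h i h1
  have b := rim h (i + 2) (f1 h i h1).2.1 h3
  have b' := rim h (i + 3) h3 h4
  have p := h.pk i
  have n := h.nb (i + 2)
  have t2 := (f1 h i h1).2.1
  have k0 := h.hk i
  have k2 := h.hk (i + 2)
  have k3 := h.hk (i + 3)
  have := h.hm9
  simp only [Sc, R, add_assoc, Nat.reduceAdd] at a b b' n
  omega

lemma l4' (h : Cyc m L κ τ c) (i : ℕ) (h1 : τ (i + 1) ≠ 0) (h3 : τ (i + 3) ≠ 0)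
    (hc : c (i + 2) ≠ c i) : L ≠ 4 := by
  rintro rfl
  have a := gad h i h1
  have b := gad h (i + 2) h3
  have p := h.pk i
  have n := h.nb (i + 1)
  have k0 := h.hk i
  have k2 := h.hk (i + 2)
  have := h.hm9
  simp only [Sc, add_assoc, Nat.reduceAdd] at a b n
  omega

lemma l5 (h : Cyc m L κ τ c) (i : ℕ) (h1 : τ (i + 1) ≠ 0) (h3 : τ (i + 3) = 0)
    (h4 : τ (i + 4) = 0) (h5 : τ (i + 5) = 0)
    (hc : (c i = 0 ∧ c (i + 2) = 3 ∧ c (i + 3) = 2) ∨ (c i = 4 ∧ c (i + 2) = 1 ∧ c (i + 3) = 2)) :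
    L ≠ 5 := by
  rintro rfl
  have a := gad h i h1
  have t0 := (f1 h i h1).1
  have t2 := (f1 h i h1).2.1
  have b := rim h (i + 2) t2 h3
  have b' := rim h (i + 3) h3 h4
  have b'' := rim h (i + 4) h4 h5
  have p := h.pk i
  have n := h.nb (i + 2)
  have n' := h.nb (i + 3)
  have k0 := h.hk i
  have k2 := h.hk (i + 2)
  have k3 := h.hk (i + 3)
  have k4 := h.hk (i + 4)
  have := h.hm9
  have := h.hm
  simp only [Sc, R, add_assoc, Nat.reduceAdd] at a b b' b'' n n'
  have n2 : κ (i + 4) ≠ κ (i + 2) := fun e => n ⟨e, h4.trans t2.symm⟩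
  have n3 : κ (i + 5) ≠ κ (i + 3) := fun e => n' ⟨e, h5.trans h3.symm⟩
  have c3 : c (i + 3) = 2 := by omega
  have s1 : (κ (i + 3) = 2 ∧ κ (i + 4) = 1) ∨ (κ (i + 3) = 1 ∧ κ (i + 4) = 2) := by
    clear a b b'' n n' hc
    omega
  have key : (κ (i + 3) = 2 ∧ κ (i + 4) = 1 ∧ κ (i + 2) = 3 ∧ κ i = 0 ∧ κ (i + 1) = 0 ∧
      τ (i + 1) = 1) ∨ (κ (i + 3) = 1 ∧ κ (i + 4) = 2 ∧ κ (i + 2) = 0 ∧ κ i = 3 ∧
      κ (i + 1) = 0 ∧ τ (i + 1) = 1) := by
    clear b' n n'
    rcases s1 with ⟨x, y⟩ | ⟨x, y⟩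
    · have e2 : κ (i + 2) = 3 ∧ c (i + 2) = 3 := by
        clear a b'' hc
        omega
      have e5 : κ i = 0 := by
        clear a b hc
        omega
      clear b b''
      left
      refine ⟨x, y, e2.1, e5, ?_, ?_⟩ <;> omega
    · have e2 : κ (i + 2) = 0 ∧ c (i + 2) = 1 := by
        clear a b'' hc
        omega
      have e5 : κ i = 3 := by
        clear a b hc
        omega
      clear b b''
      right
      refine ⟨x, y, e2.1, e5, ?_, ?_⟩ <;> omega
  clear a b b' b'' n n' hc s1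
  rcases h.miss with q | q | q
  · have q1 := q (i + 3)
    simp only [Is, add_assoc, Nat.reduceAdd] at q1
    omega
  · have q1 := q i
    have q2 := q (i + 1)
    simp only [Is, add_assoc, Nat.reduceAdd] at q1 q2
    omega
  · have q1 := q i
    have q2 := q (i + 1)
    simp only [Is, add_assoc, Nat.reduceAdd] at q1 q2
    omega

lemma four_up (h : Cyc m L κ τ c) (i : ℕ) (h1 : τ (i + 1) ≠ 0) (c0 : c i = 0)
    (c1 : c (i + 1) = 4) : Four L c := by
  have hL := h.hL
  have t0 := (f1 h i h1).1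
  have t2 := (f1 h i h1).2.1
  have pt := h.pt i
  have ne : ∀ d, τ (i + d) ≠ 0 → L ≠ d := by
    rintro d hd rfl
    exact hd (pt.trans t0)
  by_cases h3 : τ (i + 3) = 0
  · have r1 := f2 h (i + 2) t2 h3
    have n3 := l3 h i h1 h3
    by_cases h4 : τ (i + 4) = 0
    · have r2 := f2 h (i + 3) h3 h4
      have d1 : c (i + 2) ≠ c (i + 3) := f4 h (i + 2) t2 h3 h4
      have n4 := l4 h i h1 h3 h4
      by_cases u1 : c (i + 2) < c (i + 3)
      · exact ⟨i, i + 1, i + 2, i + 3, by omega, by omega, by omega, by omega, by omega,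
          by omega, by omega, by omega⟩
      by_cases h5 : τ (i + 5) = 0
      · have r3 := f2 h (i + 4) h4 h5
        have d2 : c (i + 3) ≠ c (i + 4) := f4 h (i + 3) h3 h4 h5
        by_cases u2 : c (i + 3) < c (i + 4)
        · exact ⟨i, i + 1, i + 3, i + 4, by omega, by omega, by omega, by omega, by omega,
            by omega, by omega, by omega⟩
        have n5 := l5 h i h1 h3 h4 h5 (by omega)
        by_cases h6 : τ (i + 6) = 0
        · have r4 := f2 h (i + 5) h5 h6
          have d3 : c (i + 4) ≠ c (i + 5) := f4 h (i + 4) h4 h5 h6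
          exact ⟨i, i + 1, i + 4, i + 5, by omega, by omega, by omega, by omega, by omega,
            by omega, by omega, by omega⟩
        · have n6 := ne 6 h6
          rcases (f1 h (i + 5) h6).2.2 with ⟨e1, e2⟩ | ⟨e1, e2⟩
          · exact ⟨i, i + 1, i + 5, i + 5 + 1, by omega, by omega, by omega, by omega, by omega,
              by omega, by omega, by omega⟩
          · exact ⟨i, i + 1, i + 4, i + 5, by omega, by omega, by omega, by omega, by omega,
              by omega, by omega, by omega⟩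
      · have n5 := ne 5 h5
        rcases (f1 h (i + 4) h5).2.2 with ⟨e1, e2⟩ | ⟨e1, e2⟩
        · exact ⟨i, i + 1, i + 4, i + 4 + 1, by omega, by omega, by omega, by omega, by omega,
            by omega, by omega, by omega⟩
        · exact ⟨i, i + 1, i + 3, i + 4, by omega, by omega, by omega, by omega, by omega,
            by omega, by omega, by omega⟩
    · have n4 := ne 4 h4
      rcases (f1 h (i + 3) h4).2.2 with ⟨e1, e2⟩ | ⟨e1, e2⟩
      · exact ⟨i, i + 1, i + 3, i + 3 + 1, by omega, by omega, by omega, by omega, by omega,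
          by omega, by omega, by omega⟩
      · exact ⟨i, i + 1, i + 2, i + 3, by omega, by omega, by omega, by omega, by omega,
          by omega, by omega, by omega⟩
  · have n3 := ne 3 h3
    have t4 : τ (i + 4) = 0 := (f1 h (i + 2) h3).2.1
    rcases (f1 h (i + 2) h3).2.2 with ⟨e1, e2⟩ | ⟨e1, e2⟩
    · exact ⟨i, i + 1, i + 2, i + 2 + 1, by omega, by omega, by omega, by omega, by omega,
        by omega, by omega, by omega⟩
    · have n4 := l4' h i h1 h3 (by omega)
      by_cases h5 : τ (i + 5) = 0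
      · have r := f2 h (i + 4) t4 h5
        exact ⟨i, i + 1, i + 2 + 1, i + 4, by omega, by omega, by omega, by omega, by omega,
          by omega, by omega, by omega⟩
      · have n5 := ne 5 h5
        rcases (f1 h (i + 4) h5).2.2 with ⟨e3, e4⟩ | ⟨e3, e4⟩
        · exact ⟨i, i + 1, i + 2 + 1, i + 4 + 1, by omega, by omega, by omega, by omega,
            by omega, by omega, by omega, by omega⟩
        · exact ⟨i, i + 1, i + 2 + 1, i + 4, by omega, by omega, by omega, by omega, by omega,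
            by omega, by omega, by omega⟩

lemma four_down (h : Cyc m L κ τ c) (i : ℕ) (h1 : τ (i + 1) ≠ 0) (c0 : c i = 4)
    (c1 : c (i + 1) = 0) : Four L c := by
  have hL := h.hL
  have t0 := (f1 h i h1).1
  have t2 := (f1 h i h1).2.1
  have pt := h.pt i
  have pc := h.pc i
  have ne : ∀ d, τ (i + d) ≠ 0 → L ≠ d := by
    rintro d hd rfl
    exact hd (pt.trans t0)
  by_cases h3 : τ (i + 3) = 0
  · have r1 := f2 h (i + 2) t2 h3
    have n3 := l3 h i h1 h3
    by_cases h4 : τ (i + 4) = 0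
    · have r2 := f2 h (i + 3) h3 h4
      have d1 : c (i + 2) ≠ c (i + 3) := f4 h (i + 2) t2 h3 h4
      have n4 := l4 h i h1 h3 h4
      by_cases u1 : c (i + 3) < c (i + 2)
      · exact ⟨i + 1, i + 2, i + 3, i + L, by omega, by omega, by omega, by omega, by omega,
          by omega, by omega, by omega⟩
      by_cases h5 : τ (i + 5) = 0
      · have r3 := f2 h (i + 4) h4 h5
        have d2 : c (i + 3) ≠ c (i + 4) := f4 h (i + 3) h3 h4 h5
        by_cases u2 : c (i + 4) < c (i + 3)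
        · exact ⟨i + 1, i + 3, i + 4, i + L, by omega, by omega, by omega, by omega, by omega,
            by omega, by omega, by omega⟩
        have n5 := l5 h i h1 h3 h4 h5 (by omega)
        by_cases h6 : τ (i + 6) = 0
        · have r4 := f2 h (i + 5) h5 h6
          have d3 : c (i + 4) ≠ c (i + 5) := f4 h (i + 4) h4 h5 h6
          exact ⟨i + 1, i + 4, i + 5, i + L, by omega, by omega, by omega, by omega, by omega,
            by omega, by omega, by omega⟩
        · have n6 := ne 6 h6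
          rcases (f1 h (i + 5) h6).2.2 with ⟨e1, e2⟩ | ⟨e1, e2⟩
          · exact ⟨i + 1, i + 4, i + 5, i + L, by omega, by omega, by omega, by omega, by omega,
              by omega, by omega, by omega⟩
          · exact ⟨i + 1, i + 5, i + 5 + 1, i + L, by omega, by omega, by omega, by omega,
              by omega, by omega, by omega, by omega⟩
      · have n5 := ne 5 h5
        rcases (f1 h (i + 4) h5).2.2 with ⟨e1, e2⟩ | ⟨e1, e2⟩
        · exact ⟨i + 1, i + 3, i + 4, i + L, by omega, by omega, by omega, by omega, by omega,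
            by omega, by omega, by omega⟩
        · exact ⟨i + 1, i + 4, i + 4 + 1, i + L, by omega, by omega, by omega, by omega,
            by omega, by omega, by omega, by omega⟩
    · have n4 := ne 4 h4
      rcases (f1 h (i + 3) h4).2.2 with ⟨e1, e2⟩ | ⟨e1, e2⟩
      · exact ⟨i + 1, i + 2, i + 3, i + L, by omega, by omega, by omega, by omega, by omega,
          by omega, by omega, by omega⟩
      · exact ⟨i + 1, i + 3, i + 3 + 1, i + L, by omega, by omega, by omega, by omega,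
          by omega, by omega, by omega, by omega⟩
  · have n3 := ne 3 h3
    have t4 : τ (i + 4) = 0 := (f1 h (i + 2) h3).2.1
    rcases (f1 h (i + 2) h3).2.2 with ⟨e1, e2⟩ | ⟨e1, e2⟩
    · have n4 := l4' h i h1 h3 (by omega)
      by_cases h5 : τ (i + 5) = 0
      · have r := f2 h (i + 4) t4 h5
        exact ⟨i + 1, i + 2 + 1, i + 4, i + L, by omega, by omega, by omega, by omega, by omega,
          by omega, by omega, by omega⟩
      · have n5 := ne 5 h5
        rcases (f1 h (i + 4) h5).2.2 with ⟨e3, e4⟩ | ⟨e3, e4⟩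
        · exact ⟨i + 1, i + 2 + 1, i + 4, i + L, by omega, by omega, by omega, by omega,
            by omega, by omega, by omega, by omega⟩
        · exact ⟨i + 1, i + 2 + 1, i + 4 + 1, i + L, by omega, by omega, by omega, by omega,
            by omega, by omega, by omega, by omega⟩
    · exact ⟨i + 1, i + 2, i + 2 + 1, i + L, by omega, by omega, by omega, by omega, by omega,
        by omega, by omega, by omega⟩

lemma four_rim (h : Cyc m L κ τ c) (ht : ∀ i, τ i = 0) : Four L c := by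
  have hL := h.hL
  have hm := h.hm
  have hm9 := h.hm9
  have rr := fun i => rim h i (ht i) (ht (i + 1))
  have nb : ∀ i, κ (i + 2) ≠ κ i := fun i hi => h.nb i ⟨hi, (ht _).trans (ht _).symm⟩
  have dir : (∀ i, Sc m 1 (κ i) (κ (i + 1))) ∨ (∀ i, Sc m 1 (κ (i + 1)) (κ i)) := by
    rcases rr 0 with a | a
    · left
      intro i
      induction i with
      | zero => exact a.1
      | succ i ih =>
        have b := rr (i + 1)
        have n := nb i
        have k0 := h.hk i
        have k2 := h.hk (i + 2)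
        simp only [Sc, add_assoc, Nat.reduceAdd] at b ih ⊢
        omega
    · right
      intro i
      induction i with
      | zero => exact a.1
      | succ i ih =>
        have b := rr (i + 1)
        have n := nb i
        have k0 := h.hk i
        have k2 := h.hk (i + 2)
        simp only [Sc, add_assoc, Nat.reduceAdd] at b ih ⊢
        omega
  rcases dir with d | d
  · have ex : ∀ n i, m ≤ κ i + n + 1 → ∃ j, κ j = m - 1 := by
      intro n
      induction n with
      | zero =>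
        intro i hi
        have := h.hk i
        exact ⟨i, by omega⟩
      | succ n ih =>
        intro i hi
        by_cases e : κ i = m - 1
        · exact ⟨i, e⟩
        · have := d i
          have := h.hk i
          simp only [Sc] at *
          exact ih (i + 1) (by omega)
    obtain ⟨j, hj⟩ := ex m 0 (by omega)
    have d0 := d j
    have d1 := d (j + 1)
    have d2 := d (j + 2)
    have d3 := d (j + 3)
    have d4 := d (j + 4)
    have d5 := d (j + 5)
    have d6 := d (j + 6)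
    have d7 := d (j + 7)
    have k1 := h.hk (j + 1)
    simp only [Sc, add_assoc, Nat.reduceAdd] at d0 d1 d2 d3 d4 d5 d6 d7
    have e1 : κ (j + 1) = 0 := by omega
    have e2 : κ (j + 2) = 1 := by omega
    have e3 : κ (j + 3) = 2 := by omega
    have e4 : κ (j + 4) = 3 := by omega
    have e5 : κ (j + 5) = 4 := by omega
    have e6 : κ (j + 6) = 5 := by omega
    have e7 : κ (j + 7) = 6 := by omega
    have e8 : κ (j + 8) = 7 := by omega
    have n3 : L ≠ 3 := by
      rintro rfl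
      have := h.pk (j + 1)
      simp only [add_assoc, Nat.reduceAdd] at this
      omega
    have r4 := rr (j + 4)
    have r5 := rr (j + 5)
    have r6 := rr (j + 6)
    have r7 := rr (j + 7)
    simp only [Sc, R, add_assoc, Nat.reduceAdd] at r4 r5 r6 r7
    clear d0 d1 d2 d3 d4 d5 d6 d7 ex d rr nb
    have c1 : c (j + 4) = 1 := by
      clear r5 r6 r7
      omega
    have c2 : c (j + 5) = 3 := by
      clear r4 r6 r7
      omega
    have c3 : c (j + 6) = 1 := by
      clear r4 r5 r7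
      omega
    have c4 : c (j + 7) = 3 := by
      clear r4 r5 r6
      omega
    clear r4 r5 r6 r7
    exact ⟨j + 4, j + 5, j + 6, j + 7, by omega, by omega, by omega, by omega, by omega,
      by omega, by omega, by omega⟩
  · have ex : ∀ n i, κ i ≤ n → ∃ j, κ j = 0 := by
      intro n
      induction n with
      | zero =>
        intro i hi
        exact ⟨i, by omega⟩
      | succ n ih =>
        intro i hi
        by_cases e : κ i = 0
        · exact ⟨i, e⟩
        · have := d i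
          have := h.hk (i + 1)
          simp only [Sc] at *
          exact ih (i + 1) (by omega)
    obtain ⟨j, hj⟩ := ex _ 0 le_rfl
    have d0 := d j
    have d1 := d (j + 1)
    have d2 := d (j + 2)
    have d3 := d (j + 3)
    have d4 := d (j + 4)
    have k1 := h.hk (j + 1)
    have k2 := h.hk (j + 2)
    have k3 := h.hk (j + 3)
    have k4 := h.hk (j + 4)
    have k5 := h.hk (j + 5)
    simp only [Sc, add_assoc, Nat.reduceAdd] at d0 d1 d2 d3 d4
    have e1 : κ (j + 1) = m - 1 := by omega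
    have e2 : κ (j + 2) = m - 2 := by omega
    have e3 : κ (j + 3) = m - 3 := by omega
    have e4 : κ (j + 4) = m - 4 := by omega
    have e5 : κ (j + 5) = m - 5 := by omega
    have n3 : L ≠ 3 := by
      rintro rfl
      have := h.pk j
      omega
    have r1 := rr (j + 1)
    have r2 := rr (j + 2)
    have r3 := rr (j + 3)
    have r4 := rr (j + 4)
    simp only [Sc, R, add_assoc, Nat.reduceAdd] at r1 r2 r3 r4
    clear d0 d1 d2 d3 d4 ex d rr nb
    have c1 : c (j + 1) = 1 := by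
      clear r2 r3 r4
      omega
    have c2 : c (j + 2) = 3 := by
      clear r1 r3 r4
      omega
    have c3 : c (j + 3) = 1 := by
      clear r1 r2 r4
      omega
    have c4 : c (j + 4) = 3 := by
      clear r1 r2 r3
      omega
    clear r1 r2 r3 r4
    exact ⟨j + 1, j + 2, j + 3, j + 4, by omega, by omega, by omega, by omega, by omega,
      by omega, by omega, by omega⟩

theorem four (h : Cyc m L κ τ c) : Four L c := by
  by_cases ht : ∀ i, τ (i + 1) = 0
  · apply four_rim h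
    intro i
    have := ht (i + L - 1)
    have hL := h.hL
    rw [show i + L - 1 + 1 = i + L by omega, h.pt] at this
    exact this
  · push Not at ht
    obtain ⟨i, hi⟩ := ht
    rcases (f1 h i hi).2.2 with ⟨a, b⟩ | ⟨a, b⟩
    · exact four_up h i hi a b
    · exact four_down h i hi a b

/-- a local maximum between two lower positions -/
lemma peak (g : ℕ → ℝ) (hne : ∀ n, g n ≠ g (n + 1)) (i j k : ℕ) (hij : i < j) (hjk : j < k)
    (h1 : g i < g j) (h2 : g k < g j) :
    ∃ p, i < p ∧ p < k ∧ g (p + 1) < g p ∧ g (p - 1) < g p := by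
  obtain ⟨p, hp, hmax⟩ := Finset.exists_max_image (Finset.Icc i k) g ⟨i, Finset.mem_Icc.mpr ⟨by omega, by omega⟩⟩
  rw [Finset.mem_Icc] at hp
  have hj := hmax j (Finset.mem_Icc.mpr ⟨by omega, by omega⟩)
  have hpi : p ≠ i := by
    rintro rfl
    linarith
  have hpk : p ≠ k := by
    rintro rfl
    linarith
  refine ⟨p, by omega, by omega, ?_, ?_⟩
  · exact lt_of_le_of_ne (hmax _ (Finset.mem_Icc.mpr ⟨by omega, by omega⟩)) (hne p).symm
  · have := hne (p - 1)
    rw [show p - 1 + 1 = p by omega] at this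
    exact lt_of_le_of_ne (hmax _ (Finset.mem_Icc.mpr ⟨by omega, by omega⟩)) this

end Pool.Agent.H33.Gel
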