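import Mathlib

/-!
Bipartite graphs with no additive colouring by labels in `1..k`.

Ports `P` on both sides; a gadget for every pair of families of port sets.  A gadget is a blow-up
(each vertex replaced by `m` twins with different port sets) of the bipartite graph on pairs
`(i, S)` and `(j, T)`, adjacent when `j ∈ S` and `i ∈ T`.
-/

set_option autoImplicit false
open Classical Finset

namespace Pool.Agent.H33.Lucky

theorem pig {α β : Type} [Fintype α] [Fintype β] (c : α → β) (g : ℕ)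
    (h : Fintype.card β * g < Fintype.card α) :
    ∃ b : β, ∃ S : Finset α, S.card = g ∧ ∀ x ∈ S, c x = b := by
  obtain ⟨b, hb⟩ := Fintype.exists_lt_card_fiber_of_mul_lt_card c h
  obtain ⟨S, hS, hc⟩ := Finset.exists_subset_card_eq (le_of_lt hb)
  refine ⟨b, S, hc, fun x hx => ?_⟩
  have := hS hx
  simpa using this

theorem dvd_sum_of_mod {α : Type} (S : Finset α) (f : α → ℕ) (g c : ℕ) (hS : S.card = g)
    (h : ∀ x ∈ S, f x % g = c) : g ∣ ∑ x ∈ S, f x := by
  have : ∑ x ∈ S, f x = ∑ x ∈ S, (g * (f x / g) + c) := by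
    refine Finset.sum_congr rfl fun x hx => ?_
    rw [← h x hx]; exact (Nat.div_add_mod _ _).symm
  rw [this, Finset.sum_add_distrib, ← Finset.mul_sum, Finset.sum_const, hS, smul_eq_mul]
  exact dvd_add (dvd_mul_right _ _) (dvd_mul_right _ _)

abbrev Gam (P : Type) (m : ℕ) := (Fin m → Finset P) × (Fin m → Finset P)

abbrev Side (P A B : Type) (m : ℕ) := P ⊕ (Gam P m × (A × Finset B) × Fin m)

def rel {P I J : Type} {m : ℕ} : Side P I J m → Side P J I m → Prop
  | Sum.inl _, Sum.inl _ => False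
  | Sum.inl p, Sum.inr (γ, _, t) => p ∈ γ.2 t
  | Sum.inr (γ, _, t), Sum.inl q => q ∈ γ.1 t
  | Sum.inr (γ, (i, S), _), Sum.inr (γ', (j, T), _) => γ' = γ ∧ j ∈ S ∧ i ∈ T

section
variable {P I J : Type} [Fintype P] [Fintype I] [Fintype J] {m : ℕ}

noncomputable def cell {A B : Type} [Fintype B] (f : Side P A B m → ℕ) (γ : Gam P m)
    (a : A) (b : B) : ℕ :=
  ∑ T : Finset B, ∑ t : Fin m, if b ∈ T then f (Sum.inr (γ, (a, T), t)) else 0

theorem sumX (fy : Side P J I m → ℕ) (γ : Gam P m) (i : I) (S : Finset J) (t : Fin m) :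
    (∑ y, if rel (Sum.inr (γ, (i, S), t) : Side P I J m) y then fy y else 0) =
      ∑ q ∈ γ.1 t, fy (Sum.inl q) + ∑ j ∈ S, cell fy γ j i := by
  rw [Fintype.sum_sum_type]
  congr 1
  · have : ∀ q : P, (if rel (Sum.inr (γ, (i, S), t) : Side P I J m) (Sum.inl q) then fy (Sum.inl q)
        else 0) = if q ∈ γ.1 t then fy (Sum.inl q) else 0 := fun q => if_congr Iff.rfl rfl rfl
    rw [Finset.sum_congr rfl fun q _ => this q, Finset.sum_ite_mem, Finset.univ_inter]
  · rw [Fintype.sum_prod_type, Finset.sum_eq_single γ]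
    · rw [Fintype.sum_prod_type, Fintype.sum_prod_type]
      rw [← Finset.sum_subset (Finset.subset_univ S)]
      · refine Finset.sum_congr rfl fun j hj => ?_
        unfold cell
        refine Finset.sum_congr rfl fun T _ => Finset.sum_congr rfl fun t' _ => ?_
        simp [rel, hj]
      · intro j _ hj
        refine Finset.sum_eq_zero fun T _ => Finset.sum_eq_zero fun t' _ => ?_
        simp [rel, hj]
    · intro γ' _ hne
      refine Finset.sum_eq_zero fun z _ => ?_
      obtain ⟨⟨j, T⟩, t'⟩ := z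
      simp [rel, hne]
    · intro h; exact absurd (Finset.mem_univ _) h

theorem sumY (fx : Side P I J m → ℕ) (γ : Gam P m) (j : J) (T : Finset I) (t : Fin m) :
    (∑ x, if rel x (Sum.inr (γ, (j, T), t) : Side P J I m) then fx x else 0) =
      ∑ q ∈ γ.2 t, fx (Sum.inl q) + ∑ i ∈ T, cell fx γ i j := by
  rw [Fintype.sum_sum_type]
  congr 1
  · have : ∀ q : P, (if rel (Sum.inl q) (Sum.inr (γ, (j, T), t) : Side P J I m) then fx (Sum.inl q)
        else 0) = if q ∈ γ.2 t then fx (Sum.inl q) else 0 := fun q => if_congr Iff.rfl rfl rfl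
    rw [Finset.sum_congr rfl fun q _ => this q, Finset.sum_ite_mem, Finset.univ_inter]
  · rw [Fintype.sum_prod_type, Finset.sum_eq_single γ]
    · rw [Fintype.sum_prod_type, Fintype.sum_prod_type]
      rw [← Finset.sum_subset (Finset.subset_univ T)]
      · refine Finset.sum_congr rfl fun i hi => ?_
        unfold cell
        refine Finset.sum_congr rfl fun S _ => Finset.sum_congr rfl fun t' _ => ?_
        simp [rel, hi]
      · intro i _ hi
        refine Finset.sum_eq_zero fun S _ => Finset.sum_eq_zero fun t' _ => ?_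
        simp [rel, hi]
    · intro γ' _ hne
      refine Finset.sum_eq_zero fun z _ => ?_
      obtain ⟨⟨i, S⟩, t'⟩ := z
      simp [rel, Ne.symm hne]
    · intro h; exact absurd (Finset.mem_univ _) h

omit [Fintype P] in
theorem cell_bound {A B : Type} [Fintype A] [Fintype B] (f : Side P A B m → ℕ) (k : ℕ)
    (hf : ∀ v, f v ≤ k) (γ : Gam P m) (b : B) (S : Finset A) :
    ∑ a ∈ S, cell f γ a b ≤ m * (k * (Fintype.card A * Fintype.card (Finset B))) := by
  calc ∑ a ∈ S, cell f γ a b ≤ ∑ a, cell f γ a b :=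
        Finset.sum_le_sum_of_subset (Finset.subset_univ _)
    _ ≤ ∑ _a : A, ∑ _T : Finset B, ∑ _t : Fin m, k := by
        refine Finset.sum_le_sum fun a _ => ?_
        unfold cell
        refine Finset.sum_le_sum fun T _ => Finset.sum_le_sum fun t _ => ?_
        split_ifs
        · exact hf _
        · exact Nat.zero_le _
    _ = m * (k * (Fintype.card A * Fintype.card (Finset B))) := by
        simp only [Finset.sum_const, Finset.card_univ, smul_eq_mul, Fintype.card_fin]
        ring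

theorem ports (f : P → ℕ) (k g M : ℕ) (hf : ∀ p, 1 ≤ f p ∧ f p ≤ k) (hg : g = k.factorial)
    (hP : (k + 1) * (M * g) < Fintype.card P) (u : Fin m → ℕ) (hu : ∀ t, u t ≤ M) :
    ∃ R : Fin m → Finset P, ∀ t, ∑ q ∈ R t, f q = g * u t := by
  obtain ⟨b, Q, hQ, hb⟩ := pig (fun p => (⟨f p, Nat.lt_succ_of_le (hf p).2⟩ : Fin (k + 1))) (M * g)
    (by simpa using hP)
  have hb' : ∀ q ∈ Q, f q = b.val := fun q hq => congrArg Fin.val (hb q hq)
  have key : ∀ t, ∃ R : Finset P, ∑ q ∈ R, f q = g * u t := by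
    intro t
    rcases Nat.eq_zero_or_pos (u t) with h0 | hpos
    · exact ⟨∅, by simp [h0]⟩
    · have hgpos : 0 < g := hg ▸ Nat.factorial_pos k
      have hQne : Q.Nonempty := by
        rw [← Finset.card_pos, hQ]
        exact Nat.mul_pos (lt_of_lt_of_le hpos (hu t)) hgpos
      obtain ⟨q, hq⟩ := hQne
      have hb1 : 1 ≤ b.val := hb' q hq ▸ (hf q).1
      have hbk : b.val ≤ k := hb' q hq ▸ (hf q).2
      have hdvd : b.val ∣ g := hg ▸ Nat.dvd_factorial hb1 hbk
      obtain ⟨e, he⟩ := hdvd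
      have hle : u t * e ≤ Q.card := by
        rw [hQ]
        refine Nat.mul_le_mul (hu t) ?_
        rw [he]; exact Nat.le_mul_of_pos_left _ hb1
      obtain ⟨R, hR, hc⟩ := Finset.exists_subset_card_eq hle
      refine ⟨R, ?_⟩
      rw [Finset.sum_congr rfl fun x hx => hb' x (hR hx), Finset.sum_const, hc, smul_eq_mul, he]
      ring
  choose R hR using key
  exact ⟨R, hR⟩

theorem main (k g D : ℕ) (hg : g = k.factorial) (hI : g * g < Fintype.card I)
    (hJ : (Fintype.card I * g) * g < Fintype.card J) (hD : 1 ≤ D)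
    (hD1 : k * (Fintype.card J * Fintype.card (Finset I)) ≤ D)
    (hD2 : k * (Fintype.card I * Fintype.card (Finset J)) ≤ D) (hm : m = 2 * D + 1)
    (hP : (k + 1) * ((m * D + m * m) * g) < Fintype.card P)
    (fx : Side P I J m → ℕ) (fy : Side P J I m → ℕ)
    (hx : ∀ v, 1 ≤ fx v ∧ fx v ≤ k) (hy : ∀ v, 1 ≤ fy v ∧ fy v ≤ k) :
    ∃ x y, rel x y ∧
      (∑ y', if rel x y' then fy y' else 0) = ∑ x', if rel x' y then fx x' else 0 := by
  have hgpos : 0 < g := hg ▸ Nat.factorial_pos k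
  have hmpos : 0 < m := by omega
  obtain ⟨R, hR⟩ := ports (m := m) (fun p => fy (Sum.inl p)) k g (m * D + m * m) (fun p => hy _) hg hP
    (fun t => m * D - t.val) (fun t => by omega)
  obtain ⟨R', hR'⟩ := ports (m := m) (fun p => fx (Sum.inl p)) k g (m * D + m * m) (fun p => hx _) hg hP
    (fun t => m * t.val) (fun t => by
      have : m * t.val ≤ m * m := Nat.mul_le_mul_left _ (le_of_lt t.isLt)
      omega)
  set γ : Gam P m := (R, R') with hγ
  have col : ∀ j : J, ∃ T : Finset I, ∃ i ∈ T, g ∣ ∑ i' ∈ T, cell fx γ i' j := by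
    intro j
    obtain ⟨b, T, hT, hb⟩ := pig (fun i => (⟨cell fx γ i j % g, Nat.mod_lt _ hgpos⟩ : Fin g)) g
      (by simpa using hI)
    obtain ⟨i, hi⟩ : T.Nonempty := by rw [← Finset.card_pos, hT]; exact hgpos
    exact ⟨T, i, hi, dvd_sum_of_mod T _ g b.val hT fun x hx => congrArg Fin.val (hb x hx)⟩
  choose T ι hι hT using col
  obtain ⟨⟨i, c⟩, S, hS, hb⟩ := pig
    (fun j => ((ι j, ⟨cell fy γ j (ι j) % g, Nat.mod_lt _ hgpos⟩) : I × Fin g)) g
    (by simpa using hJ)
  have hb1 : ∀ j ∈ S, ι j = i := fun j hj => congrArg Prod.fst (hb j hj)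
  have hb2 : ∀ j ∈ S, cell fy γ j i % g = c.val := fun j hj => by
    have := congrArg (fun z : I × Fin g => z.2.val) (hb j hj)
    simpa [hb1 j hj] using this
  obtain ⟨j, hj⟩ : S.Nonempty := by rw [← Finset.card_pos, hS]; exact hgpos
  obtain ⟨A, hA⟩ := dvd_sum_of_mod S (fun j => cell fy γ j i) g c.val hS hb2
  obtain ⟨B, hB⟩ := hT j
  have hAle : A ≤ m * D := by
    have h1 := cell_bound fy k (fun v => (hy v).2) γ i S
    have h2 : A ≤ g * A := Nat.le_mul_of_pos_left _ hgpos
    have h3 := Nat.mul_le_mul_left m hD1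
    omega
  have hBle : B ≤ m * D := by
    have h1 := cell_bound fx k (fun v => (hx v).2) γ j (T j)
    have h2 : B ≤ g * B := Nat.le_mul_of_pos_left _ hgpos
    have h3 := Nat.mul_le_mul_left m hD2
    omega
  set E := A + m * D - B with hE
  have hEle : E ≤ m * (2 * D) := by
    have : m * (2 * D) = m * D + m * D := by ring
    omega
  have hq : E / m < m := by
    have : E / m ≤ 2 * D := Nat.div_le_of_le_mul hEle
    omega
  have hr : E % m < m := Nat.mod_lt _ hmpos
  refine ⟨Sum.inr (γ, (i, S), ⟨E % m, hr⟩), Sum.inr (γ, (j, T j), ⟨E / m, hq⟩), ?_, ?_⟩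
  · exact ⟨rfl, hj, hb1 j hj ▸ hι j⟩
  · rw [sumX, sumY, hA, hB]
    have e1 := hR ⟨E % m, hr⟩
    have e2 := hR' ⟨E / m, hq⟩
    simp only [hγ] at e1 e2 ⊢
    rw [e1, e2, ← Nat.mul_add, ← Nat.mul_add]
    congr 1
    have h1 := Nat.div_add_mod E m
    have h2 : m ≤ m * D := Nat.le_mul_of_pos_right _ hD
    omega

end

/-- For every `k` there is a finite bipartite relation with no additive colouring by `1..k`. -/
theorem core (k : ℕ) : ∃ (X Y : Type) (_ : Fintype X) (_ : Fintype Y) (r : X → Y → Prop),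
    Nonempty X ∧ ∀ (fx : X → ℕ) (fy : Y → ℕ), (∀ v, 1 ≤ fx v ∧ fx v ≤ k) →
      (∀ v, 1 ≤ fy v ∧ fy v ≤ k) →
      ∃ x y, r x y ∧ (∑ y', if r x y' then fy y' else 0) = ∑ x', if r x' y then fx x' else 0 := by
  obtain ⟨g, hg⟩ : ∃ g, g = k.factorial := ⟨_, rfl⟩
  obtain ⟨a, ha⟩ : ∃ a, a = g * g + 1 := ⟨_, rfl⟩
  obtain ⟨b, hb⟩ : ∃ b, b = a * g * g + 1 := ⟨_, rfl⟩
  obtain ⟨D, hD⟩ : ∃ D, D = k * (Fintype.card (Fin b) * Fintype.card (Finset (Fin a))) +
    k * (Fintype.card (Fin a) * Fintype.card (Finset (Fin b))) + 1 := ⟨_, rfl⟩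
  obtain ⟨m, hm⟩ : ∃ m, m = 2 * D + 1 := ⟨_, rfl⟩
  obtain ⟨N, hN⟩ : ∃ N, N = (k + 1) * ((m * D + m * m) * g) + 1 := ⟨_, rfl⟩
  refine ⟨Side (Fin N) (Fin a) (Fin b) m, Side (Fin N) (Fin b) (Fin a) m, inferInstance,
    inferInstance, rel, ⟨Sum.inl ⟨0, by omega⟩⟩, fun fx fy hx hy => ?_⟩
  have := main (P := Fin N) (I := Fin a) (J := Fin b) (m := m) k g D hg (by simp; omega)
    (by simp; omega) (by omega) (by omega) (by omega) hm (by simp; omega) fx fy hx hy
  convert this

def bip {X Y : Type} (r : X → Y → Prop) : SimpleGraph (X ⊕ Y) where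
  Adj u v := match u, v with
    | Sum.inl x, Sum.inr y => r x y
    | Sum.inr y, Sum.inl x => r x y
    | _, _ => False
  symm := ⟨by rintro (x | y) (x' | y') h <;> exact h⟩
  loopless := ⟨by rintro (x | y) h <;> exact h⟩

theorem bip_colorable {X Y : Type} (r : X → Y → Prop) : (bip r).Colorable 2 := by
  refine ⟨SimpleGraph.Coloring.mk (fun v => match v with | Sum.inl _ => 0 | Sum.inr _ => 1) ?_⟩
  rintro (x | y) (x' | y') h
  · exact absurd h id
  · simp
  · simp
  · exact absurd h id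

/-- For every `k` some finite bipartite graph has no additive colouring with labels in `1..k`. -/
theorem graph (k : ℕ) : ∃ (V : Type) (_ : Fintype V) (G : SimpleGraph V), G.Colorable 2 ∧
    ∀ f : V → ℕ, (∀ v, 1 ≤ f v ∧ f v ≤ k) → ∃ u v, G.Adj u v ∧
      (∑ w, if G.Adj u w then f w else 0) = ∑ w, if G.Adj v w then f w else 0 := by
  obtain ⟨X, Y, iX, iY, r, -, h⟩ := core k
  refine ⟨X ⊕ Y, inferInstance, bip r, bip_colorable r, fun f hf => ?_⟩
  obtain ⟨x, y, hxy, he⟩ := h (fun x => f (Sum.inl x)) (fun y => f (Sum.inr y))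
    (fun _ => hf _) (fun _ => hf _)
  refine ⟨Sum.inl x, Sum.inr y, hxy, ?_⟩
  rw [Fintype.sum_sum_type, Fintype.sum_sum_type]
  have z1 : (∑ a : X, if (bip r).Adj (Sum.inl x) (Sum.inl a) then f (Sum.inl a) else 0) = 0 :=
    Finset.sum_eq_zero fun a _ => if_neg id
  have z2 : (∑ a : Y, if (bip r).Adj (Sum.inr y) (Sum.inr a) then f (Sum.inr a) else 0) = 0 :=
    Finset.sum_eq_zero fun a _ => if_neg id
  rw [z1, z2, zero_add, add_zero]
  exact he

end Pool.Agent.H33.Lucky
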