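import Mathlib

/-!
Two-edge-coloured graphs with equal red and blue degrees, both at least `k`, and no majority
3-partition.  Ports `Fin N`; for every injective choice of `K` ports and both colour swaps a gadget
of seven groups of twins.
-/

set_option autoImplicit false
open Classical Finset

namespace Pool.Agent.H33.Majority

def sz (t : ℕ) : Fin 7 → ℕ := ![t, t, t + 1, 2 * t + 3, 2 * t + 3, 2 * t + 1, 2 * t + 1]
def kk (t : ℕ) : Fin 7 → ℕ := ![2 * t + 1, 4 * t + 1, 4 * t + 6, t + 2, t + 2, t + 1, t + 1]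
def ty : Fin 7 → Bool := ![true, true, false, true, true, false, false]
def E0 : Bool → List (Fin 7 × Fin 7)
  | true => [(2, 1), (5, 6), (2, 3), (2, 4)]
  | false => [(0, 2), (0, 1), (3, 4), (1, 5), (1, 6)]
def E (s : Bool) (g h : Fin 7) : Bool := decide ((g, h) ∈ E0 s) || decide ((h, g) ∈ E0 s)

theorem E_symm : ∀ s g h, E s g h = E s h g := by decide
theorem E_irrefl : ∀ s g, E s g g = false := by decide
theorem E_disj : ∀ s g h, E s g h = true → E (!s) g h = true → False := by decide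

abbrev W (t : ℕ) := Σ g : Fin 7, Fin (sz t g)
abbrev Gam (t : ℕ) := Fin (4 * t + 6) ↪ Fin (3 * (4 * t + 6) + 1)
abbrev V (t : ℕ) := Fin (3 * (4 * t + 6) + 1) ⊕ (Gam t × Bool × W t)

def adj (t : ℕ) (s : Bool) : V t → V t → Prop
  | Sum.inl _, Sum.inl _ => False
  | Sum.inl p, Sum.inr (γ, b, w) => ∃ i, γ i = p ∧ i.val < kk t w.1 ∧ ty w.1 = xor s b
  | Sum.inr (γ, b, w), Sum.inl p => ∃ i, γ i = p ∧ i.val < kk t w.1 ∧ ty w.1 = xor s b
  | Sum.inr (γ, b, w), Sum.inr (γ', b', w') => γ' = γ ∧ b' = b ∧ E (xor s b) w.1 w'.1 = true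

def G (t : ℕ) (s : Bool) : SimpleGraph (V t) where
  Adj := adj t s
  symm := ⟨by
    rintro (p | ⟨γ, b, w⟩) (p' | ⟨γ', b', w'⟩) h
    · exact h
    · exact h
    · exact h
    · obtain ⟨rfl, rfl, h⟩ := h
      exact ⟨rfl, rfl, by rw [E_symm]; exact h⟩⟩
  loopless := ⟨by
    rintro (p | ⟨γ, b, w⟩) h
    · exact h
    · have := h.2.2
      rw [E_irrefl] at this
      exact Bool.false_ne_true this⟩

theorem disj (t : ℕ) : Disjoint (G t true) (G t false) := by
  rw [SimpleGraph.disjoint_left]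
  rintro (p | ⟨γ, b, w⟩) (p' | ⟨γ', b', w'⟩) h h'
  · exact h
  · obtain ⟨_, _, _, h1⟩ := h
    obtain ⟨_, _, _, h2⟩ := h'
    rw [h1] at h2; cases b' <;> simp at h2
  · obtain ⟨_, _, _, h1⟩ := h
    obtain ⟨_, _, _, h2⟩ := h'
    rw [h1] at h2; cases b <;> simp at h2
  · have h1 := h.2.2
    have h2 := h'.2.2
    refine E_disj (xor false b) _ _ h2 ?_
    cases b <;> simpa using h1

noncomputable def ind (p : Prop) : ℕ := if p then 1 else 0

theorem ind_pos {p : Prop} (h : p) : ind p = 1 := if_pos h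
theorem ind_neg {p : Prop} (h : ¬ p) : ind p = 0 := if_neg h
theorem ind_congr {p q : Prop} (h : p ↔ q) : ind p = ind q := by rw [propext h]

theorem ncard_eq {α : Type} [Fintype α] (q : α → Prop) :
    {u | q u}.ncard = ∑ u, ind (q u) := by
  unfold ind
  rw [← Finset.card_filter, ← Set.ncard_coe_finset]
  congr 1
  ext u; simp

theorem cnt (t : ℕ) (s : Bool) (γ : Gam t) (b : Bool) (w : W t) (q : V t → Prop) :
    {u | (G t s).Adj (Sum.inr (γ, b, w)) u ∧ q u}.ncard =
      (∑ i : Fin (4 * t + 6), ind ((i.val < kk t w.1 ∧ ty w.1 = xor s b) ∧ q (Sum.inl (γ i)))) +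
      ∑ h : Fin 7, if E (xor s b) w.1 h = true then
        (∑ j : Fin (sz t h), ind (q (Sum.inr (γ, b, ⟨h, j⟩)))) else 0 := by
  rw [ncard_eq, Fintype.sum_sum_type]
  congr 1
  · rw [← ncard_eq, ← ncard_eq, ← Set.ncard_image_of_injective _ γ.injective]
    congr 1
    ext p
    simp only [Set.mem_ofPred_eq, Set.mem_image]
    constructor
    · rintro ⟨⟨i, rfl, h⟩, hq⟩
      exact ⟨i, ⟨h, hq⟩, rfl⟩
    · rintro ⟨i, ⟨h, hq⟩, rfl⟩
      exact ⟨⟨i, rfl, h⟩, hq⟩
  · rw [Fintype.sum_prod_type, Finset.sum_eq_single γ]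
    · rw [Fintype.sum_prod_type, Finset.sum_eq_single b]
      · rw [Fintype.sum_sigma]
        refine Finset.sum_congr rfl fun h _ => ?_
        split_ifs with hE
        · refine Finset.sum_congr rfl fun j _ => ind_congr ?_
          exact ⟨fun x => x.2, fun x => ⟨⟨rfl, rfl, hE⟩, x⟩⟩
        · refine Finset.sum_eq_zero fun j _ => ind_neg ?_
          exact fun x => hE x.1.2.2
      · intro b' _ hne
        refine Finset.sum_eq_zero fun z _ => ind_neg ?_
        exact fun x => hne x.1.2.1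
      · intro h; exact absurd (Finset.mem_univ _) h
    · intro γ' _ hne
      refine Finset.sum_eq_zero fun z _ => ind_neg ?_
      exact fun x => hne x.1.1
    · intro h; exact absurd (Finset.mem_univ _) h

theorem kk_le (t : ℕ) (g : Fin 7) : kk t g ≤ 4 * t + 6 := by
  fin_cases g <;> simp [kk] <;> omega

theorem sum_lt (K m : ℕ) (h : m ≤ K) (A : Prop) [Decidable A] :
    (∑ i : Fin K, ind (i.val < m ∧ A)) = if A then m else 0 := by
  split_ifs with hA
  · rw [Fin.sum_univ_eq_sum_range (fun i => ind (i < m ∧ A)) K]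
    rw [← Finset.sum_subset (s₁ := Finset.range m)]
    · rw [Finset.sum_congr rfl (g := fun _ => 1)]
      · simp
      · intro i hi
        exact ind_pos ⟨Finset.mem_range.1 hi, hA⟩
    · intro i hi
      simp only [Finset.mem_range] at hi ⊢
      omega
    · intro i _ hi
      exact ind_neg fun x => hi (Finset.mem_range.2 x.1)
  · exact Finset.sum_eq_zero fun i _ => ind_neg fun x => hA x.2

theorem deg (t : ℕ) (s : Bool) (γ : Gam t) (b : Bool) (w : W t) :
    ((G t s).neighborSet (Sum.inr (γ, b, w))).ncard =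
      (if ty w.1 = xor s b then kk t w.1 else 0) +
      ∑ h : Fin 7, if E (xor s b) w.1 h = true then sz t h else 0 := by
  have := cnt t s γ b w (fun _ => True)
  simp only [and_true, ind_pos trivial, Finset.sum_const, Finset.card_univ, Fintype.card_fin,
    smul_eq_mul, mul_one] at this
  rw [sum_lt (4 * t + 6) _ (kk_le t w.1)] at this
  exact this

theorem local_deg (t : ℕ) (g : Fin 7) (s : Bool) :
    ((if ty g = s then kk t g else 0) + ∑ h : Fin 7, if E s g h = true then sz t h else 0) =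
      ![2 * t + 1, 5 * t + 2, 5 * t + 6, 2 * t + 3, 2 * t + 3, 2 * t + 1, 2 * t + 1] g := by
  fin_cases g <;> cases s <;> simp [Fin.sum_univ_seven, ty, kk, sz, E, E0] <;> omega

theorem port_euler (t : ℕ) (p : Fin (3 * (4 * t + 6) + 1)) :
    ((G t true).neighborSet (Sum.inl p)).ncard = ((G t false).neighborSet (Sum.inl p)).ncard := by
  let σ : V t → V t := fun v => match v with
    | Sum.inl p => Sum.inl p
    | Sum.inr (γ, b, w) => Sum.inr (γ, !b, w)
  have hσ : Function.Involutive σ := by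
    rintro (p | ⟨γ, b, w⟩) <;> simp [σ]
  rw [← Set.ncard_image_of_injective _ hσ.injective]
  congr 1
  ext u
  rw [Set.mem_image_iff_of_inverse hσ.leftInverse hσ.rightInverse]
  rcases u with (q | ⟨γ, b, w⟩)
  · exact Iff.rfl
  · simp only [σ, SimpleGraph.mem_neighborSet, G, adj]
    cases b <;> simp

theorem port_deg (t : ℕ) (p : Fin (3 * (4 * t + 6) + 1)) :
    t ≤ ((G t true).neighborSet (Sum.inl p)).ncard := by
  obtain ⟨γ0⟩ : Nonempty (Gam t) :=
    Function.Embedding.nonempty_of_card_le (by simp; omega)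
  let γ : Gam t := γ0.trans (Equiv.swap (γ0 ⟨0, by omega⟩) p).toEmbedding
  have hγ : γ ⟨0, by omega⟩ = p := by simp [γ]
  let φ : Fin (sz t 0) → V t := fun j => Sum.inr (γ, false, ⟨0, j⟩)
  have hφ : Function.Injective φ := by
    intro a b h
    simpa [φ] using h
  have hsub : φ '' Set.univ ⊆ (G t true).neighborSet (Sum.inl p) := by
    rintro _ ⟨j, -, rfl⟩
    exact ⟨⟨0, by omega⟩, hγ, by simp [kk], by simp [ty]⟩
  have := Set.ncard_le_ncard hsub (Set.toFinite _)
  rw [Set.ncard_image_of_injective _ hφ, Set.ncard_univ] at this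
  simpa [sz] using this

theorem euler (t : ℕ) (v : V t) :
    ((G t true).neighborSet v).ncard = ((G t false).neighborSet v).ncard := by
  rcases v with (p | ⟨γ, b, w⟩)
  · exact port_euler t p
  · rw [deg, deg, local_deg, local_deg]

theorem mindeg (t : ℕ) (v : V t) : t ≤ ((G t true).neighborSet v).ncard := by
  rcases v with (p | ⟨γ, b, ⟨g, j⟩⟩)
  · exact port_deg t p
  · rw [deg, local_deg]
    fin_cases g <;> simp <;> omega

theorem arith (k a0 a1 a2 a3 a4 a5 a6 b0 b1 b2 b3 b4 b5 b6 : ℕ)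
    (s0 : a0 + b0 = 2 * k + 1) (s1 : a1 + b1 = 2 * k + 1) (s2 : a2 + b2 = 2 * k + 2)
    (s3 : a3 + b3 = 4 * k + 5) (s4 : a4 + b4 = 4 * k + 5)
    (s5 : a5 + b5 = 4 * k + 3) (s6 : a6 + b6 = 4 * k + 3)
    (A0 : 0 < a0 → 2 * (a1 + a2) ≤ 4 * k + 3) (B0 : 0 < b0 → 2 * (b1 + b2) ≤ 4 * k + 3)
    (A1 : 0 < a1 → 2 * (a0 + a5 + a6) ≤ 10 * k + 7) (B1 : 0 < b1 → 2 * (b0 + b5 + b6) ≤ 10 * k + 7)
    (A2 : 0 < a2 → 2 * (a1 + a3 + a4) ≤ 10 * k + 11)
    (B2 : 0 < b2 → 2 * (b1 + b3 + b4) ≤ 10 * k + 11)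
    (A3 : 0 < a3 → 2 * a4 ≤ 4 * k + 5) (B3 : 0 < b3 → 2 * b4 ≤ 4 * k + 5)
    (A4 : 0 < a4 → 2 * a3 ≤ 4 * k + 5) (B4 : 0 < b4 → 2 * b3 ≤ 4 * k + 5)
    (A5 : 0 < a5 → 2 * a6 ≤ 4 * k + 3) (B5 : 0 < b5 → 2 * b6 ≤ 4 * k + 3)
    (A6 : 0 < a6 → 2 * a5 ≤ 4 * k + 3) (B6 : 0 < b6 → 2 * b5 ≤ 4 * k + 3) : False := by
  have h34 : a3 + a4 = 4 * k + 5 := by
    clear A0 B0 A1 B1 A2 B2 A5 B5 A6 B6 s0 s1 s2 s5 s6
    omega
  have h56 : a5 + a6 = 4 * k + 3 := by
    clear A0 B0 A1 B1 A2 B2 A3 B3 A4 B4 s0 s1 s2 s3 s4 h34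
    omega
  clear A3 B3 A4 B4 A5 B5 A6 B6
  omega

theorem arith2 (k : ℕ) (n : Fin 7 → Fin 3 → ℕ) (α : Fin 3)
    (hs : ∀ g, n g 0 + n g 1 + n g 2 = sz (2 * k + 1) g)
    (hc : ∀ g j s, 0 < n g j →
      2 * ((if ty g = s ∧ j = α then kk (2 * k + 1) g else 0) +
        ∑ h : Fin 7, if E s g h = true then n h j else 0) ≤
      ![2 * (2 * k + 1) + 1, 5 * (2 * k + 1) + 2, 5 * (2 * k + 1) + 6, 2 * (2 * k + 1) + 3,
        2 * (2 * k + 1) + 3, 2 * (2 * k + 1) + 1, 2 * (2 * k + 1) + 1] g) : False := by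
  have hz : ∀ g, n g α = 0 := by
    intro g
    by_contra hne
    have := hc g α (ty g) (Nat.pos_of_ne_zero hne)
    simp only [and_self, if_true] at this
    fin_cases g <;> simp [kk] at this <;> omega
  have key : ∀ a b : Fin 3, (∀ g, n g a + n g b = sz (2 * k + 1) g) → False := by
    intro a b hab
    have s0 := hab 0
    have s1 := hab 1
    have s2 := hab 2
    have s3 := hab 3
    have s4 := hab 4
    have s5 := hab 5
    have s6 := hab 6
    simp [sz] at s0 s1 s2 s3 s4 s5 s6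
    have c0 := fun j => hc 0 j false
    have c1 := fun j => hc 1 j false
    have c2 := fun j => hc 2 j true
    have c3 := fun j => hc 3 j false
    have c4 := fun j => hc 4 j false
    have c5 := fun j => hc 5 j true
    have c6 := fun j => hc 6 j true
    simp [Fin.sum_univ_seven, ty, E, E0] at c0 c1 c2 c3 c4 c5 c6
    exact arith k (n 0 a) (n 1 a) (n 2 a) (n 3 a) (n 4 a) (n 5 a) (n 6 a)
      (n 0 b) (n 1 b) (n 2 b) (n 3 b) (n 4 b) (n 5 b) (n 6 b)
      (by omega) (by omega) (by omega) (by omega) (by omega) (by omega) (by omega)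
      (fun h => by have := c0 a h; omega) (fun h => by have := c0 b h; omega)
      (fun h => by have := c1 a h; omega) (fun h => by have := c1 b h; omega)
      (fun h => by have := c2 a h; omega) (fun h => by have := c2 b h; omega)
      (fun h => by have := c3 a h; omega) (fun h => by have := c3 b h; omega)
      (fun h => by have := c4 a h; omega) (fun h => by have := c4 b h; omega)
      (fun h => by have := c5 a h; omega) (fun h => by have := c5 b h; omega)
      (fun h => by have := c6 a h; omega) (fun h => by have := c6 b h; omega)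
  fin_cases α
  · exact key 1 2 fun g => by have := hs g; have h2 : n g 0 = 0 := hz g; omega
  · exact key 0 2 fun g => by have := hs g; have h2 : n g 1 = 0 := hz g; omega
  · exact key 0 1 fun g => by have := hs g; have h2 : n g 2 = 0 := hz g; omega

theorem no_partition (k : ℕ) (c : V (2 * k + 1) → Fin 3)
    (hc : ∀ s v, 2 * {u | (G (2 * k + 1) s).Adj v u ∧ c u = c v}.ncard ≤
      ((G (2 * k + 1) s).neighborSet v).ncard) : False := by
  obtain ⟨α, hα⟩ := Fintype.exists_lt_card_fiber_of_mul_lt_card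
    (fun p : Fin (3 * (4 * (2 * k + 1) + 6) + 1) => c (Sum.inl p)) (n := 4 * (2 * k + 1) + 6)
    (by simp)
  obtain ⟨γ, hγ⟩ : ∃ γ : Gam (2 * k + 1), ∀ i, c (Sum.inl (γ i)) = α := by
    obtain ⟨e⟩ : Nonempty (Fin (4 * (2 * k + 1) + 6) ↪
        (Finset.univ.filter fun p : Fin (3 * (4 * (2 * k + 1) + 6) + 1) => c (Sum.inl p) = α)) :=
      Function.Embedding.nonempty_of_card_le (by
        rw [Fintype.card_fin, Fintype.card_coe]; exact le_of_lt hα)
    refine ⟨e.trans (Function.Embedding.subtype _), fun i => ?_⟩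
    exact (Finset.mem_filter.1 (e i).2).2
  let n : Fin 7 → Fin 3 → ℕ := fun g j =>
    ∑ i : Fin (sz (2 * k + 1) g), ind (c (Sum.inr (γ, false, ⟨g, i⟩)) = j)
  refine arith2 k n α (fun g => ?_) (fun g j s hpos => ?_)
  · simp only [n]
    rw [← Finset.sum_add_distrib, ← Finset.sum_add_distrib]
    rw [Finset.sum_congr rfl (g := fun _ => 1)]
    · simp
    · intro i _
      generalize c (Sum.inr (γ, false, ⟨g, i⟩)) = x
      fin_cases x <;> simp [ind]
  · obtain ⟨i, hi⟩ : ∃ i : Fin (sz (2 * k + 1) g), c (Sum.inr (γ, false, ⟨g, i⟩)) = j := by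
      by_contra hne
      have : n g j = 0 := Finset.sum_eq_zero fun i _ => ind_neg fun h => hne ⟨i, h⟩
      omega
    have h1 := hc s (Sum.inr (γ, false, ⟨g, i⟩))
    rw [cnt, deg, local_deg, hi] at h1
    simp only [Bool.xor_false, hγ] at h1
    have h2 : (∑ x : Fin (4 * (2 * k + 1) + 6), ind ((x.val < kk (2 * k + 1) g ∧ ty g = s) ∧ α = j)) =
        if ty g = s ∧ j = α then kk (2 * k + 1) g else 0 := by
      rw [← sum_lt (4 * (2 * k + 1) + 6) _ (kk_le _ g)]
      refine Finset.sum_congr rfl fun x _ => ind_congr ?_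
      rw [and_assoc, eq_comm (a := α)]
    rw [h2] at h1
    exact h1

end Pool.Agent.H33.Majority
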