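import Mathlib

/-!
The paw and a Shannon triangle whose parallel edges are replaced by diamond wires.
-/

set_option autoImplicit false

namespace Pool.Agent.H33.Paw

open SimpleGraph

def paw : SimpleGraph (Fin 4) where
  Adj a b := (a.val, b.val) ∈ [(0, 1), (1, 0), (0, 2), (2, 0), (1, 2), (2, 1), (2, 3), (3, 2)]
  symm := ⟨by decide⟩
  loopless := ⟨by decide⟩

instance : DecidableRel paw.Adj := fun a b => by unfold paw; infer_instance

abbrev V (m : ℕ) := Fin 3 ⊕ (Fin 3 × Fin m × Fin 4)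

def D (t t' : Fin 4) : Prop := t ≠ t' ∧ ¬ (2 ≤ t.val ∧ 2 ≤ t'.val)

instance : DecidableRel D := fun a b => by unfold D; infer_instance

def T (h i : Fin 3) (t : Fin 4) : Prop := (t = 2 ∧ h = i) ∨ (t = 3 ∧ h = i + 1)

instance (h i : Fin 3) (t : Fin 4) : Decidable (T h i t) := by unfold T; infer_instance

def adj (m : ℕ) : V m → V m → Prop
  | Sum.inl _, Sum.inl _ => False
  | Sum.inl h, Sum.inr (i, _, t) => T h i t
  | Sum.inr (i, _, t), Sum.inl h => T h i t
  | Sum.inr (i, j, t), Sum.inr (i', j', t') => i' = i ∧ j' = j ∧ D t t'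

theorem D_symm : ∀ t t', D t t' → D t' t := by decide

def G (m : ℕ) : SimpleGraph (V m) where
  Adj := adj m
  symm := ⟨by
    rintro (h | ⟨i, j, t⟩) (h' | ⟨i', j', t'⟩) H
    · exact H
    · exact H
    · exact H
    · obtain ⟨rfl, rfl, H⟩ := H
      exact ⟨rfl, rfl, D_symm _ _ H⟩⟩
  loopless := ⟨by
    rintro (h | ⟨i, j, t⟩) H
    · exact H
    · exact H.2.2.1 rfl⟩

def mkCol {W α : Type} (Γ : SimpleGraph W) (col : W → W → α) (hs : ∀ u v, col u v = col v u)
    (hp : ∀ u v w, Γ.Adj u v → Γ.Adj u w → v ≠ w → col u v ≠ col u w) :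
    Γ.lineGraph.Coloring α :=
  Coloring.mk (fun e => Sym2.lift ⟨col, hs⟩ e.1) (by
    rintro ⟨e, he⟩ ⟨f, hf⟩ h
    rw [lineGraph_adj_iff_exists] at h
    obtain ⟨hne, u, hu, hu'⟩ := h
    obtain ⟨v, rfl⟩ := Sym2.mem_iff_exists.1 hu
    obtain ⟨w, rfl⟩ := Sym2.mem_iff_exists.1 hu'
    refine hp u v w he hf ?_
    rintro rfl
    exact hne rfl)

theorem valid {W α : Type} {Γ : SimpleGraph W} (c : Γ.lineGraph.Coloring α) {u v w : W}
    (h1 : Γ.Adj u v) (h2 : Γ.Adj u w) (hne : v ≠ w) :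
    c ⟨s(u, v), h1⟩ ≠ c ⟨s(u, w), h2⟩ := by
  apply c.valid
  rw [lineGraph_adj_iff_exists]
  refine ⟨fun h => hne ?_, u, by simp, by simp⟩
  have := congrArg Subtype.val h
  simpa [h1.ne, h1.ne', h2.ne, h2.ne'] using this

def inner {α : Type} (X Y Z : α) (t t' : Fin 4) : α :=
  if t.val + t'.val = 1 then Z else if t.val + t'.val = 3 then Y else X

def col {m : ℕ} {α : Type} (p q Z : Fin 3 → Fin m → α) (X Y : α) : V m → V m → α
  | Sum.inl _, Sum.inl _ => X
  | Sum.inl _, Sum.inr (i, j, t) => if t = 2 then p i j else q i j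
  | Sum.inr (i, j, t), Sum.inl _ => if t = 2 then p i j else q i j
  | Sum.inr (i, j, t), Sum.inr (i', j', t') =>
      if i' = i ∧ j' = j then inner X Y (Z i j) t t' else X

theorem col_symm {m : ℕ} {α : Type} (p q Z : Fin 3 → Fin m → α) (X Y : α) (u v : V m) :
    col p q Z X Y u v = col p q Z X Y v u := by
  rcases u with (h | ⟨i, j, t⟩) <;> rcases v with (h' | ⟨i', j', t'⟩)
  · rfl
  · rfl
  · rfl
  · simp only [col]
    by_cases H : i' = i ∧ j' = j
    · obtain ⟨rfl, rfl⟩ := H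
      simp [inner, add_comm]
    · rw [if_neg H, if_neg (fun x => H ⟨x.1.symm, x.2.symm⟩)]

theorem col_proper {m : ℕ} {α : Type} (p q Z : Fin 3 → Fin m → α) (X Y : α)
    (hXY : X ≠ Y) (hZX : ∀ i j, Z i j ≠ X) (hZY : ∀ i j, Z i j ≠ Y)
    (hpX : ∀ i j, p i j ≠ X) (hpY : ∀ i j, p i j ≠ Y)
    (hqX : ∀ i j, q i j ≠ X) (hqY : ∀ i j, q i j ≠ Y)
    (hpp : ∀ i j j', p i j = p i j' → j = j') (hqq : ∀ i j j', q i j = q i j' → j = j')
    (hpq : ∀ i j j', p (i + 1) j ≠ q i j')
    (u v w : V m) (h1 : (G m).Adj u v) (h2 : (G m).Adj u w) (hne : v ≠ w) :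
    col p q Z X Y u v ≠ col p q Z X Y u w := by
  rcases u with (h | ⟨i, j, t⟩) <;> rcases v with (h' | ⟨i', j', t'⟩) <;>
    rcases w with (h'' | ⟨i'', j'', t''⟩)
  · exact absurd h1 id
  · exact absurd h1 id
  · exact absurd h2 id
  · rcases h1 with ⟨rfl, rfl⟩ | ⟨rfl, e1⟩ <;> rcases h2 with ⟨rfl, e2⟩ | ⟨rfl, e2⟩
    · subst e2
      intro H
      exact hne (by rw [hpp _ _ _ H])
    · subst e2
      exact hpq _ _ _
    · subst e2
      subst e1
      exact (hpq _ _ _).symm
    · have : i' = i'' := add_right_cancel (e1.symm.trans e2)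
      subst this
      intro H
      exact hne (by rw [hqq _ _ _ H])
  · exfalso
    apply hne
    rcases h1 with ⟨rfl, rfl⟩ | ⟨rfl, rfl⟩ <;> rcases h2 with ⟨e, rfl⟩ | ⟨e, rfl⟩ <;>
      first | rfl | exact absurd e (by decide)
  · obtain ⟨rfl, rfl, hD⟩ := h2
    have a1 := hpX i'' j''
    have a2 := hpY i'' j''
    have a3 := hqX i'' j''
    have a4 := hqY i'' j''
    rcases h1 with ⟨rfl, rfl⟩ | ⟨rfl, rfl⟩ <;> fin_cases t'' <;>
      first | exact absurd hD (by decide) | simpa [col, inner]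
  · obtain ⟨rfl, rfl, hD⟩ := h1
    have a1 := (hpX i' j').symm
    have a2 := (hpY i' j').symm
    have a3 := (hqX i' j').symm
    have a4 := (hqY i' j').symm
    rcases h2 with ⟨rfl, rfl⟩ | ⟨rfl, rfl⟩ <;> fin_cases t' <;>
      first | exact absurd hD (by decide) | simpa [col, inner]
  · obtain ⟨rfl, rfl, hD⟩ := h1
    obtain ⟨rfl, rfl, hD'⟩ := h2
    have a1 := hZX i'' j''
    have a2 := hZY i'' j''
    have a3 := a1.symm
    have a4 := a2.symm
    have a5 := hXY.symm
    fin_cases t <;> fin_cases t' <;> fin_cases t'' <;>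
      first | exact absurd hD (by decide) | exact absurd hD' (by decide) | exact absurd rfl hne |
        simpa [col, inner]

theorem chi_le (m : ℕ) : (G m).lineGraph.chromaticNumber ≤ ((2 * m + 3 : ℕ) : ℕ∞) := by
  apply Colorable.chromaticNumber_le
  rw [colorable_iff_exists_bdd_nat_coloring]
  refine ⟨mkCol (G m) (col (fun _ j => j.val) (fun _ j => m + j.val) (fun _ _ => 2 * m + 2)
    (2 * m) (2 * m + 1)) (col_symm _ _ _ _ _) (col_proper _ _ _ _ _ (by omega)
      (fun _ _ => by omega) (fun _ _ => by omega) (fun _ j => by have := j.isLt; omega)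
      (fun _ j => by have := j.isLt; omega) (fun _ j => by have := j.isLt; omega)
      (fun _ j => by have := j.isLt; omega) (fun _ _ _ h => Fin.ext h)
      (fun _ _ _ h => Fin.ext (by omega)) (fun _ j _ => by have := j.isLt; omega)), ?_⟩
  rintro ⟨e, he⟩
  induction e using Sym2.ind with
  | _ u v =>
    show col _ _ _ _ _ u v < _
    rcases u with (h | ⟨i, j, t⟩) <;> rcases v with (h' | ⟨i', j', t'⟩) <;>
      simp only [col, inner] <;> (try split_ifs) <;> omega

/-- the colouring giving every wire its own colour -/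
def good (m : ℕ) : (G m).lineGraph.Coloring ((Fin 3 × Fin m) ⊕ Bool) :=
  mkCol (G m) (col (fun i j => Sum.inl (i, j)) (fun i j => Sum.inl (i, j))
    (fun i j => Sum.inl (i, j)) (Sum.inr true) (Sum.inr false)) (col_symm _ _ _ _ _)
    (col_proper _ _ _ _ _ (by simp) (by simp) (by simp) (by simp) (by simp) (by simp) (by simp)
      (by simp) (by simp) (fun i j j' h => by
        have : i + 1 = i := congrArg Prod.fst (Sum.inl.inj h)
        revert this; fin_cases i <;> decide))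

theorem good_paw (m : ℕ) (x y z w : V m) (hxy : (G m).Adj x y) (hxz : (G m).Adj x z)
    (hyz : (G m).Adj y z) (hzw : (G m).Adj z w) (hwx : w ≠ x) (hwy : w ≠ y) :
    good m ⟨s(x, y), hxy⟩ = good m ⟨s(z, w), hzw⟩ := by
  show col _ _ _ _ _ x y = col _ _ _ _ _ z w
  have tri : ∀ (h i : Fin 3) (t t' : Fin 4), T h i t → T h i t' → D t t' → False := by decide
  rcases x with (h | ⟨i, j, t⟩) <;> rcases y with (h' | ⟨i', j', t'⟩) <;>
    rcases z with (h'' | ⟨i'', j'', t''⟩)
  · exact absurd hxy id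
  · exact absurd hxy id
  · exact absurd hxz id
  · obtain ⟨rfl, rfl, hD⟩ := hyz
    exact (tri _ _ _ _ hxy hxz hD).elim
  · exact absurd hyz id
  · obtain ⟨rfl, rfl, hD⟩ := hxz
    exact (tri _ _ _ _ hxy hyz hD).elim
  · obtain ⟨rfl, rfl, hD⟩ := hxy
    exact (tri _ _ _ _ hxz hyz hD).elim
  · obtain ⟨rfl, rfl, h1⟩ := hxy
    obtain ⟨rfl, rfl, h2⟩ := hxz
    obtain ⟨-, -, h3⟩ := hyz
    rcases w with (g | ⟨a, b, s⟩)
    · have key : ∀ (g i : Fin 3) (t t' t'' : Fin 4), D t t' → D t t'' → D t' t'' → T g i t'' →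
          t.val + t'.val = 1 := by decide
      have := key _ _ _ _ _ h1 h2 h3 hzw
      simp [col, inner, this]
    · obtain ⟨rfl, rfl, h4⟩ := hzw
      have n1 : s ≠ t := fun e => hwx (by rw [e])
      have n2 : s ≠ t' := fun e => hwy (by rw [e])
      have key : ∀ (t t' t'' s : Fin 4), D t t' → D t t'' → D t' t'' → D t'' s → s ≠ t → s ≠ t' →
          (t.val + t'.val = 1 ↔ t''.val + s.val = 1) ∧
          (t.val + t'.val = 3 ↔ t''.val + s.val = 3) := by decide
      have := key _ _ _ _ h1 h2 h3 h4 n1 n2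
      simp [col, inner, this.1, this.2]

theorem good_no_rainbow (m : ℕ) (f : Copy paw (G m)) :
    ¬ Function.Injective fun e => good m (f.mapEdgeSet e) := by
  intro hinj
  have a01 : paw.Adj 0 1 := by decide
  have a23 : paw.Adj 2 3 := by decide
  have := good_paw m (f 0) (f 1) (f 2) (f 3) (f.toHom.map_adj a01)
    (f.toHom.map_adj (by decide)) (f.toHom.map_adj (by decide)) (f.toHom.map_adj a23)
    (fun h => absurd (f.injective h) (by decide)) (fun h => absurd (f.injective h) (by decide))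
  have h2 : (⟨s(0, 1), a01⟩ : paw.edgeSet) = ⟨s(2, 3), a23⟩ := hinj this
  have h3 : (s(0, 1) : Sym2 (Fin 4)) = s(2, 3) := congrArg Subtype.val h2
  exact absurd h3 (by decide)

theorem paw_forced {W α : Type} {Γ : SimpleGraph W} (c : Γ.lineGraph.Coloring α)
    (hc : ∀ f : Copy paw Γ, ¬ Function.Injective fun e => c (f.mapEdgeSet e))
    (x y z w : W) (hxy : Γ.Adj x y) (hxz : Γ.Adj x z) (hyz : Γ.Adj y z) (hzw : Γ.Adj z w)
    (hwx : w ≠ x) (hwy : w ≠ y) : c ⟨s(x, y), hxy⟩ = c ⟨s(z, w), hzw⟩ := by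
  by_contra hne
  let φ : Fin 4 → W := ![x, y, z, w]
  have hφ : ∀ a b, paw.Adj a b → Γ.Adj (φ a) (φ b) := by
    intro a b h
    fin_cases a <;> fin_cases b <;>
      first | exact absurd h (by decide) | assumption | (apply Γ.symm.symm; assumption)
  have hinj : Function.Injective φ := by
    have n1 := hxy.ne
    have n2 := hxz.ne
    have n3 := hyz.ne
    have n4 := hzw.ne
    intro a b h
    fin_cases a <;> fin_cases b <;> first | rfl | exact absurd h (by assumption) |
      exact absurd h.symm (by assumption)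
  let f : Copy paw Γ := ⟨⟨φ, fun {a b} h => hφ a b h⟩, hinj⟩
  apply hc f
  intro e e' h
  by_contra hee
  by_cases hadj : paw.lineGraph.Adj e e'
  · exact c.valid (f.lineGraph.toHom.map_adj hadj) h
  · obtain ⟨e, he⟩ := e
    obtain ⟨e', he'⟩ := e'
    have key : ∀ e e' : Sym2 (Fin 4), e ∈ paw.edgeSet → e' ∈ paw.edgeSet → e ≠ e' →
        (¬ ∃ v, v ∈ e ∧ v ∈ e') → (e = s(0, 1) ∧ e' = s(2, 3)) ∨ (e = s(2, 3) ∧ e' = s(0, 1)) := by
      decide
    rw [lineGraph_adj_iff_exists] at hadj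
    rcases key e e' he he' (fun x => hee (Subtype.ext x)) (fun x => hadj ⟨hee, x⟩) with
      ⟨rfl, rfl⟩ | ⟨rfl, rfl⟩
    · exact hne h
    · exact hne h.symm

def ed {W : Type} {Γ : SimpleGraph W} {u v : W} (h : Γ.Adj u v) : Γ.edgeSet := ⟨s(u, v), h⟩

theorem ed_symm {W : Type} {Γ : SimpleGraph W} {u v : W} (h : Γ.Adj u v) : ed h = ed h.symm :=
  Subtype.ext Sym2.eq_swap

theorem many (m : ℕ) {α : Type} (c : (G m).lineGraph.Coloring α)
    (hc : ∀ f : Copy paw (G m), ¬ Function.Injective fun e => c (f.mapEdgeSet e)) :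
    3 * m ≤ (Set.range c).ncard := by
  have hp : ∀ (i : Fin 3) (j : Fin m), (G m).Adj (Sum.inl i) (Sum.inr (i, j, 2)) :=
    fun i j => Or.inl ⟨rfl, rfl⟩
  have hq : ∀ (i : Fin 3) (j : Fin m), (G m).Adj (Sum.inl (i + 1)) (Sum.inr (i, j, 3)) :=
    fun i j => Or.inr ⟨rfl, rfl⟩
  have hd : ∀ (i : Fin 3) (j : Fin m) (t t' : Fin 4), D t t' →
      (G m).Adj (Sum.inr (i, j, t)) (Sum.inr (i, j, t')) := fun i j t t' h => ⟨rfl, rfl, h⟩
  have wire : ∀ i j, c (ed (hp i j)) = c (ed (hq i j)) := by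
    intro i j
    have e1 : c (ed (hd i j 0 1 (by decide))) = c (ed (hp i j).symm) :=
      paw_forced c hc _ _ _ _ (hd i j 0 1 (by decide)) (hd i j 0 2 (by decide))
      (hd i j 1 2 (by decide)) (hp i j).symm (by simp) (by simp)
    have e2 : c (ed (hd i j 0 1 (by decide))) = c (ed (hq i j).symm) :=
      paw_forced c hc _ _ _ _ (hd i j 0 1 (by decide)) (hd i j 0 3 (by decide))
      (hd i j 1 3 (by decide)) (hq i j).symm (by simp) (by simp)
    rw [ed_symm (hp i j), ed_symm (hq i j), ← e1, ← e2]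
  let ψ : Fin 3 × Fin m → α := fun x => c (ed (hp x.1 x.2))
  have step : ∀ (i : Fin 3) (j j' : Fin m), ψ (i + 1, j) ≠ ψ (i, j') := by
    intro i j j'
    show c (ed (hp (i + 1) j)) ≠ c (ed (hp i j'))
    rw [wire i j']
    exact valid c (hp (i + 1) j) (hq i j') (by simp)
  have hψ : Function.Injective ψ := by
    rintro ⟨i, j⟩ ⟨i', j'⟩ h
    have tri : ∀ i i' : Fin 3, i = i' ∨ i = i' + 1 ∨ i' = i + 1 := by decide
    rcases tri i i' with rfl | rfl | rfl
    · by_contra hne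
      refine valid c (hp i j) (hp i j') (fun e => hne ?_) h
      have : j = j' := by simpa using e
      rw [this]
    · exact absurd h (step _ _ _)
    · exact absurd h.symm (step _ _ _)
  have hsub : Set.range ψ ⊆ Set.range c := by
    rintro _ ⟨x, rfl⟩
    exact ⟨_, rfl⟩
  have := Set.ncard_le_ncard hsub (Set.finite_range _)
  rw [Set.ncard_range_of_injective hψ] at this
  simpa using this

end Pool.Agent.H33.Paw
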